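import Mathlib

set_option autoImplicit false

namespace Pool.Agent.Results.MP_4c291d_al.LeastClosureArity

open Equiv

/-- `G` is Galois closed over a `k`-element set: it is the invariance group of some set of
functions `k^n → k`. -/
def GaloisClosed (n k : ℕ) (G : Subgroup (Perm (Fin n))) : Prop :=
  ∃ F : Set ((Fin n → Fin k) → Fin k),
    (G : Set (Perm (Fin n))) = {σ | ∀ f ∈ F, ∀ a : Fin n → Fin k, f (fun i => a (σ i)) = f a}

/-- `G` is `m`-closed (Wielandt): it is the set of all permutations preserving every member of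
some set of `m`-ary relations. -/
def MClosed (n m : ℕ) (G : Subgroup (Perm (Fin n))) : Prop :=
  ∃ R : Set (Set (Fin m → Fin n)),
    (G : Set (Perm (Fin n))) = {σ | ∀ ρ ∈ R, ∀ r ∈ ρ, (fun j => σ (r j)) ∈ ρ}

/-- The set of `m ≥ 1` such that every subgroup of `S_n` that is Galois closed over a `k`-element
set is `m`-closed. -/
def good (n k : ℕ) : Set ℕ :=
  {m | 1 ≤ m ∧ ∀ G : Subgroup (Perm (Fin n)), GaloisClosed n k G → MClosed n m G}

lemma galoisClosed_of {n k : ℕ} (hk : 2 ≤ k) (G : Subgroup (Perm (Fin n)))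
    (h : ∀ σ : Perm (Fin n), (∀ a : Fin n → Fin k, ∃ g ∈ G, (fun i => a (σ i)) = fun i => a (g i)) →
      σ ∈ G) : GaloisClosed n k G := by
  classical
  refine ⟨{f | ∀ g ∈ G, ∀ a : Fin n → Fin k, f (fun i => a (g i)) = f a}, ?_⟩
  ext σ
  constructor
  · intro hσ f hf a
    exact hf σ hσ a
  · intro hσ
    refine h σ fun a => ?_
    set f : (Fin n → Fin k) → Fin k := fun x =>
      if ∃ g ∈ G, x = fun i => a (g i) then ⟨1, by omega⟩ else ⟨0, by omega⟩ with hf
    have hfm : ∀ g ∈ G, ∀ x : Fin n → Fin k, f (fun i => x (g i)) = f x := by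
      intro g hg x
      have : (∃ g' ∈ G, (fun i => x (g i)) = fun i => a (g' i)) ↔ ∃ g' ∈ G, x = fun i => a (g' i) := by
        constructor
        · rintro ⟨g', hg', h'⟩
          refine ⟨g' * g⁻¹, G.mul_mem hg' (G.inv_mem hg), ?_⟩
          funext i
          have := congrFun h' (g⁻¹ i)
          simpa using this
        · rintro ⟨g', hg', h'⟩
          refine ⟨g' * g, G.mul_mem hg' hg, ?_⟩
          funext i
          rw [h']
          simp
      simp only [hf, this]
    have h1 := hσ f hfm a
    have h2 : f a = ⟨1, by omega⟩ := by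
      simp only [hf]
      rw [if_pos ⟨1, G.one_mem, by simp⟩]
    rw [h2] at h1
    by_contra hcon
    simp only [hf] at h1
    rw [if_neg hcon] at h1
    simp [Fin.ext_iff] at h1

lemma mClosed_of {n k m : ℕ} (hn : 0 < n) (hm : ∀ a : Fin n → Fin k, ∃ c,
      (Finset.univ.filter fun i => a i ≠ c).card ≤ m)
    (G : Subgroup (Perm (Fin n))) (hG : GaloisClosed n k G) : MClosed n m G := by
  classical
  obtain ⟨F, hF⟩ := hG
  refine ⟨{ρ | ∀ g ∈ G, ∀ r ∈ ρ, (fun j => g (r j)) ∈ ρ}, ?_⟩
  ext σ
  constructor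
  · intro hσ ρ hρ r hr
    exact hρ σ hσ r hr
  · intro hσ
    rw [hF]
    intro f hf a
    obtain ⟨c, hc⟩ := hm a
    -- the positions which `σ` sends outside of the color class of `c`
    set T : Finset (Fin n) := Finset.univ.filter fun i => a (σ i) ≠ c with hT
    have hTc : T.card ≤ m := by
      refine le_trans (le_of_eq ?_) hc
      refine Finset.card_bij (fun i _ => σ i) ?_ ?_ ?_
      · intro i hi
        simpa [hT] using hi
      · intro i _ j _ hij
        exact σ.injective hij
      · intro j hj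
        exact ⟨σ.symm j, by simpa [hT] using hj, by simp⟩
    have hr : ∃ r : Fin m → Fin n, ∀ i ∈ T, ∃ j, r j = i := by
      refine ⟨fun j => if h : (j : ℕ) < T.card then (T.equivFin.symm ⟨j, h⟩ : Fin n) else ⟨0, hn⟩,
        fun i hi => ?_⟩
      refine ⟨⟨T.equivFin ⟨i, hi⟩, (T.equivFin ⟨i, hi⟩).isLt.trans_le hTc⟩, ?_⟩
      simp
    obtain ⟨r, hr⟩ := hr
    have h1 : (fun j => σ (r j)) ∈ {x : Fin m → Fin n | ∃ g ∈ G, x = fun j => g (r j)} := by
      refine hσ _ ?_ r ⟨1, G.one_mem, by simp⟩
      rintro g hg x ⟨g', hg', rfl⟩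
      exact ⟨g * g', G.mul_mem hg hg', by simp⟩
    obtain ⟨g, hg, hgr⟩ := h1
    have hgT : ∀ i ∈ T, σ i = g i := by
      intro i hi
      obtain ⟨j, rfl⟩ := hr i hi
      exact congrFun hgr j
    have himg : ∀ i, a (g i) ≠ c → i ∈ T := by
      intro i hi
      -- `g` maps `T` onto the complement of the class of `c`
      have h2 : σ.symm (g i) ∈ T := by simpa [hT] using hi
      have h3 := hgT _ h2
      simp only [apply_symm_apply] at h3
      have h4 := g.injective h3
      rw [h4]
      exact h2
    have h2 : (fun i => a (σ i)) = fun i => a (g i) := by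
      funext i
      by_cases hi : i ∈ T
      · rw [hgT i hi]
      · have h3 : a (σ i) = c := by
          by_contra h4
          exact hi (by simpa [hT] using h4)
        have h4 : a (g i) = c := by
          by_contra h4
          exact hi (himg i h4)
        rw [h3, h4]
    rw [h2]
    have hg' : g ∈ (G : Set (Perm (Fin n))) := hg
    rw [hF] at hg'
    exact hg' f hf a

/-- The even part of the Young subgroup with blocks `{i | i / k = b}`. -/
def evenYoung (n k : ℕ) : Subgroup (Perm (Fin n)) where
  carrier := {σ | (∀ i, (σ i : ℕ) / k = (i : ℕ) / k) ∧ Perm.sign σ = 1}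
  mul_mem' := by
    rintro σ τ ⟨h1, h2⟩ ⟨h3, h4⟩
    refine ⟨fun i => ?_, by rw [Perm.sign_mul, h2, h4, one_mul]⟩
    rw [Perm.mul_apply, h1, h3]
  one_mem' := ⟨fun i => rfl, Perm.sign_one⟩
  inv_mem' := by
    rintro σ ⟨h1, h2⟩
    refine ⟨fun i => ?_, by rw [Perm.sign_inv, h2]⟩
    have := h1 (σ⁻¹ i)
    have h3 : σ (σ⁻¹ i) = i := σ.apply_symm_apply i
    rw [h3] at this
    exact this.symm

lemma evenYoung_galoisClosed (n k : ℕ) (hk : 2 ≤ k) : GaloisClosed n k (evenYoung n k) := by
  refine galoisClosed_of hk _ fun σ hσ => ?_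
  have hblk : ∀ i, (σ i : ℕ) / k = (i : ℕ) / k := by
    intro i
    obtain ⟨g, ⟨hg, _⟩, h⟩ := hσ (fun j => if (j : ℕ) / k = (i : ℕ) / k then ⟨1, by omega⟩ else
      ⟨0, by omega⟩)
    have h1 := congrFun h i
    simp only [hg i, if_true] at h1
    by_contra hne
    rw [if_neg hne] at h1
    simp [Fin.ext_iff] at h1
  obtain ⟨g, hg, h⟩ := hσ (fun j => ⟨(j : ℕ) % k, Nat.mod_lt _ (by omega)⟩)
  have h1 : σ = g := by
    ext i
    have h2 := congrFun h i
    simp only [Fin.mk.injEq] at h2
    have h3 := hblk i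
    have h4 := hg.1 i
    rw [← Nat.div_add_mod (σ i : ℕ) k, ← Nat.div_add_mod (g i : ℕ) k, h2, h3, h4]
  rw [h1]
  exact hg

/-- **Theorem.** For all `n, k ≥ 2`, `w(n,k) = n - ⌈n/k⌉`. -/
theorem result (n k : ℕ) (hn : 2 ≤ n) (hk : 2 ≤ k) :
    IsLeast (good n k) (n - ⌈(n : ℚ) / k⌉₊) := by
  have hkQ : (0 : ℚ) < k := by exact_mod_cast (by omega : 0 < k)
  set c : ℕ := ⌈(n : ℚ) / k⌉₊ with hc
  have hc1 : n ≤ c * k := by
    have h1 : (n : ℚ) / k ≤ c := Nat.le_ceil _
    rw [div_le_iff₀ hkQ] at h1
    exact_mod_cast h1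
  have hc2 : (c - 1) * k < n := by
    have hcpos : 0 < c := Nat.ceil_pos.2 (div_pos (by exact_mod_cast (by omega : 0 < n)) hkQ)
    have h1 : ((c - 1 : ℕ) : ℚ) < (n : ℚ) / k := by
      rw [← Nat.lt_ceil]
      omega
    rw [lt_div_iff₀ hkQ] at h1
    exact_mod_cast h1
  have hcn : c < n := by
    by_contra h
    have h2 : (n - 1) * 2 ≤ (c - 1) * k := Nat.mul_le_mul (by omega) hk
    omega
  constructor
  · refine ⟨by omega, fun G hG => mClosed_of (k := k) (by omega) (fun a => ?_) G hG⟩
    -- pigeonhole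
    have h1 : ∃ x ∈ (Finset.univ : Finset (Fin k)),
        c - 1 < (Finset.univ.filter fun i : Fin n => a i = x).card := by
      refine Finset.exists_lt_card_fiber_of_mul_lt_card_of_maps_to (fun i _ => Finset.mem_univ _) ?_
      simp only [Finset.card_univ, Fintype.card_fin]
      rw [mul_comm]
      exact hc2
    obtain ⟨x, _, hx⟩ := h1
    refine ⟨x, ?_⟩
    have h2 := Finset.card_filter_add_card_filter_not (s := (Finset.univ : Finset (Fin n)))
      (fun i => a i = x)
    simp only [Finset.card_univ, Fintype.card_fin] at h2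
    have h3 : (Finset.univ.filter fun i : Fin n => a i ≠ x).card =
      (Finset.univ.filter fun i : Fin n => ¬ a i = x).card := rfl
    omega
  · rintro m ⟨hm1, hm⟩
    by_contra hlt
    push Not at hlt
    obtain ⟨R, hR⟩ := hm _ (evenYoung_galoisClosed n k hk)
    set σ : Perm (Fin n) := swap ⟨0, by omega⟩ ⟨1, by omega⟩ with hσ
    have hσblk : ∀ i, (σ i : ℕ) / k = (i : ℕ) / k := by
      intro i
      rw [hσ, swap_apply_def]
      split_ifs with h1 h2
      · rw [h1]; simp [Nat.div_eq_of_lt (by omega : 1 < k)]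
      · rw [h2]; simp [Nat.div_eq_of_lt (by omega : 1 < k)]
      · rfl
    have hmem : σ ∈ (evenYoung n k : Set (Perm (Fin n))) := by
      rw [hR]
      intro ρ hρ r hr
      -- two points outside of the range of `r` in the same block
      have h1 : ∃ i ∈ (Finset.univ.filter fun i : Fin n => ∀ j, r j ≠ i),
          ∃ i' ∈ (Finset.univ.filter fun i : Fin n => ∀ j, r j ≠ i), i ≠ i' ∧
            (i : ℕ) / k = (i' : ℕ) / k := by
        refine Finset.exists_ne_map_eq_of_card_lt_of_maps_to (t := Finset.range c) ?_ ?_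
        · have h2 := Finset.card_filter_add_card_filter_not (s := (Finset.univ : Finset (Fin n)))
            (fun i : Fin n => ∀ j, r j ≠ i)
          simp only [Finset.card_univ, Fintype.card_fin] at h2
          have h3 : (Finset.univ.filter fun i : Fin n => ¬ ∀ j, r j ≠ i).card ≤ m := by
            have h4 : (Finset.univ.filter fun i : Fin n => ¬ ∀ j, r j ≠ i) ⊆
                Finset.univ.image r := by
              intro i hi
              simp only [Finset.mem_filter, Finset.mem_univ, true_and, not_forall, not_not] at hi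
              obtain ⟨j, hj⟩ := hi
              exact Finset.mem_image.2 ⟨j, Finset.mem_univ _, hj⟩
            refine (Finset.card_le_card h4).trans (Finset.card_image_le.trans ?_)
            simp
          rw [Finset.card_range]
          omega
        · intro i _
          simp only [Finset.coe_range, Set.mem_Iio]
          rw [Nat.div_lt_iff_lt_mul (by omega)]
          exact i.isLt.trans_le hc1
      obtain ⟨i, hi, i', hi', hne, hblk⟩ := h1
      simp only [Finset.mem_filter, Finset.mem_univ, true_and] at hi hi'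
      have hg : σ * swap i i' ∈ (evenYoung n k : Set (Perm (Fin n))) := by
        refine ⟨fun j => ?_, ?_⟩
        · rw [Perm.mul_apply, hσblk, swap_apply_def]
          split_ifs with h1 h2
          · rw [h1, hblk]
          · rw [h2, hblk]
          · rfl
        · rw [Perm.sign_mul, hσ, Perm.sign_swap (by simp [Fin.ext_iff]), Perm.sign_swap hne]
          rfl
      rw [hR] at hg
      have h2 := hg ρ hρ r hr
      have h3 : (fun j => (σ * swap i i') (r j)) = fun j => σ (r j) := by
        funext j
        rw [Perm.mul_apply, swap_apply_of_ne_of_ne (hi j) (hi' j)]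
      rwa [h3] at h2
    have h5 : Perm.sign σ = 1 := hmem.2
    rw [hσ, Perm.sign_swap (by simp [Fin.ext_iff])] at h5
    exact absurd h5 (by decide)

end Pool.Agent.Results.MP_4c291d_al.LeastClosureArity
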